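import Pool.Agent.H72.AmpF
import Pool.Agent.H72.AmpG

set_option autoImplicit false
set_option linter.unusedVariables false

namespace Pool.Agent.Results.MP_0a37ce_al.WeakAmple

open AlgebraicGeometry CategoryTheory Limits TensorProduct Pool.Agent.H72.Amp

/-- A `K`-curve: geometrically integral, separated, of finite type, of dimension one. -/
def IsCurve {K : Type} [Field K] {C : Scheme.{0}} (f : C ⟶ Spec (.of K)) : Prop :=
  GeometricallyIntegral f ∧ IsSeparated f ∧ LocallyOfFiniteType f ∧ QuasiCompact f ∧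
    topologicalKrullDim C = 1

/-- The set `C(L)` of `L`-rational points. -/
def Pts {K : Type} [Field K] {C : Scheme.{0}} (f : C ⟶ Spec (.of K)) (L : Type) [Field L]
    [Algebra K L] : Type :=
  {p : Spec (.of L) ⟶ C // p ≫ f = Spec.map (CommRingCat.ofHom (algebraMap K L))}

def Ample (K : Type) [Field K] : Prop :=
  ∀ (C : Scheme.{0}) (f : C ⟶ Spec (.of K)), IsCurve f → Smooth f → Nonempty (Pts f K) →
    Infinite (Pts f K)

def VirtuallyAmple (K : Type) [Field K] : Prop :=
  ∃ (L : Type) (_ : Field L) (_ : Algebra K L), FiniteDimensional K L ∧ Ample L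

def WeaklyAmple (K : Type) [Field K] : Prop :=
  ∀ (C : Scheme.{0}) (f : C ⟶ Spec (.of K)), IsCurve f →
    ∃ (L : Type) (_ : Field L) (_ : Algebra K L), FiniteDimensional K L ∧ Infinite (Pts f L)

theorem pt_eq {K A L : Type} [Field K] [CommRing A] [Algebra K A] [Field L] [Algebra K L]
    (ψ : A →ₐ[K] L) : Spec.map (CommRingCat.ofHom ψ.toRingHom) ≫
      Spec.map (CommRingCat.ofHom (algebraMap K A)) =
      Spec.map (CommRingCat.ofHom (algebraMap K L)) := by
  rw [← Spec.map_comp, ← CommRingCat.ofHom_comp]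
  exact congrArg (fun g => Spec.map (CommRingCat.ofHom g)) ψ.comp_algebraMap

theorem result : ∃ (K : Type) (_ : Field K), WeaklyAmple K ∧ ¬ VirtuallyAmple K := by
  obtain ⟨K, h1, h2⟩ := main
  refine ⟨K, inferInstance, fun C f ⟨c1, c2, c3, c4, c5⟩ => ?_, fun ⟨L, _, _, hL, hA⟩ => ?_⟩
  · have := GeometricallyIntegral.isIntegral_of_subsingleton f
    obtain ⟨x⟩ : Nonempty C := inferInstance
    obtain ⟨R, i, hi, y, rfl⟩ := C.exists_Spec_apply_eq x
    obtain ⟨φ, hφ⟩ := Spec.map_surjective (i ≫ f)
    let := φ.hom.toAlgebra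
    have hφ' : Spec.map (CommRingCat.ofHom (algebraMap K R)) = i ≫ f := hφ
    have hft : LocallyOfFiniteType (Spec.map φ) := hφ ▸ inferInstance
    have : Algebra.FiniteType K R :=
      ((HasRingHomProperty.Spec_iff (P := @LocallyOfFiniteType)).1 hft : φ.hom.FiniteType)
    have : Nontrivial R := PrimeSpectrum.nonempty_iff_nontrivial.1 ⟨y⟩
    have : IsIntegral (pullback f (Spec.map (CommRingCat.ofHom (algebraMap K ℂ)))) :=
      pullback_of_geometrically c1.1 ℂ _
    have : IsIntegral (Spec (.of (R ⊗[K] ℂ))) :=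
      isIntegral_of_isOpenImmersion ((pullbackSpecIso K R ℂ).inv ≫
        pullback.map _ _ f (Spec.map (CommRingCat.ofHom (algebraMap K ℂ))) i (𝟙 _) (𝟙 _)
          (by rw [hφ', Category.comp_id]) (by simp))
    have : IsDomain (R ⊗[K] ℂ) := (affine_isIntegral_iff (.of (R ⊗[K] ℂ))).1 this
    have : IsDomain (ℂ ⊗[K] R) := (Algebra.TensorProduct.comm K ℂ R).injective.isDomain _
    obtain ⟨L, l1, l2⟩ := h1 R (by
      rw [← c5, ← PrimeSpectrum.topologicalKrullDim_eq_ringKrullDim]
      exact i.isOpenEmbedding.isInducing.topologicalKrullDim_le) (fun hR => by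
      let := hR.toField
      have e : Set.range i = {i y} := by
        ext z
        exact ⟨fun ⟨w, hw⟩ => hw ▸ congrArg i (Subsingleton.elim (α := PrimeSpectrum R) w y),
          fun h => ⟨y, h.symm⟩⟩
      have o : IsOpen {i y} := e ▸ i.isOpenEmbedding.isOpen_range
      have := LocallyOfFiniteType.jacobsonSpace f
      have u := IsClopen.eq_univ ⟨isClosed_singleton_of_isLocallyClosed_singleton
        o.isLocallyClosed, o⟩ (Set.singleton_nonempty _)
      have : Subsingleton C := ⟨fun a b => (u.ge (Set.mem_univ a)).trans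
        (u.ge (Set.mem_univ b)).symm⟩
      have := topologicalKrullDim_zero_of_discreteTopology C
      rw [c5] at this
      exact absurd this (by decide))
    refine ⟨L, inferInstance, inferInstance, l1, Infinite.of_injective (fun ψ : R →ₐ[K] L =>
      (⟨Spec.map (CommRingCat.ofHom ψ.toRingHom) ≫ i, by
        rw [Category.assoc, ← hφ']; exact pt_eq ψ⟩ : Pts f L)) (fun a b e => ?_)⟩
    have := Spec.map_injective ((cancel_mono i).1 (congrArg Subtype.val e))
    exact AlgHom.ext (fun z => congr($(this).hom z))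
  · have : CharZero L := charZero_of_injective_algebraMap (algebraMap K L).injective
    obtain ⟨t, t0, ht⟩ := h2 L
    obtain ⟨A, _, _, a1, a2, a3, ⟨a4⟩, a5⟩ := curve_ex t0 ht
    have s : Smooth (Spec.map (CommRingCat.ofHom (algebraMap L A))) :=
      (HasRingHomProperty.Spec_iff (P := @Smooth)).2 (RingHom.smooth_algebraMap.2 a1)
    have := hA _ (Spec.map (CommRingCat.ofHom (algebraMap L A))) ⟨⟨geometrically_iff_of_commRing.2
      (fun E _ _ Y _ _ h => ?_)⟩, inferInstance, inferInstance, inferInstance,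
      (PrimeSpectrum.topologicalKrullDim_eq_ringKrullDim A).trans a3⟩ s ⟨⟨_, pt_eq a4⟩⟩
    · refine (Finite.of_surjective (fun ψ : A →ₐ[L] L => (⟨_, pt_eq ψ⟩ : Pts _ L)) ?_).not_infinite
        this
      rintro ⟨p, hp⟩
      obtain ⟨φ, rfl⟩ := Spec.map_surjective p
      rw [← Spec.map_comp] at hp
      exact ⟨⟨φ.hom, fun c => congr($(Spec.map_injective hp).hom c)⟩, rfl⟩
    · have := a2 E
      have : IsDomain (A ⊗[L] E) := (Algebra.TensorProduct.comm L A E).injective.isDomain _
      exact IsIntegral.of_isIso (h.isoPullback ≪≫ pullbackSpecIso L A E).inv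

end Pool.Agent.Results.MP_0a37ce_al.WeakAmple
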